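import Pool.Graph.R_seed8.W822.ResVar

/-!
Strict monotonicity of the minimal speed for every small step, by concavity, and invariance of the
variance exponent under scaling of the weights.
-/

set_option autoImplicit false

open MeasureTheory ProbabilityTheory Filter Topology
open scoped ENNReal NNReal

namespace Pool.Agent.KS6_98.FppA

open Pool.Agent.W822.FPP

/-- the passage time is concave in the step -/
lemma T_concave {s m t : ℝ} (hs : 0 ≤ s) (hsm : s ≤ m) (hmt : m ≤ t) (ω : Om) (u v : V) :
    (t - m) * T s ω u v + (m - s) * T t ω u v ≤ (t - s) * T m ω u v := by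
  obtain ⟨p, hp⟩ := exists_min (hs.trans hsm) ω u v
  rw [← hp]
  have h1 := mul_le_mul_of_nonneg_left (T_le_cost hs ω p) (sub_nonneg.2 hmt)
  have h2 := mul_le_mul_of_nonneg_left (T_le_cost ((hs.trans hsm).trans hmt) ω p)
    (sub_nonneg.2 hsm)
  refine (add_le_add h1 h2).trans (le_of_eq ?_)
  rw [cost_eq, cost_eq, cost_eq]
  ring

/-- the mean passage time is concave in the step -/
lemma h_concave {s m t : ℝ} (hs : 0 ≤ s) (hsm : s ≤ m) (hmt : m ≤ t) (x : V) :
    (t - m) * h s x + (m - s) * h t x ≤ (t - s) * h m x := by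
  have hm := hs.trans hsm
  have ht := hm.trans hmt
  unfold h
  rw [← integral_const_mul, ← integral_const_mul, ← integral_const_mul,
    ← integral_add ((integrable_T hs 0 x).const_mul _) ((integrable_T ht 0 x).const_mul _)]
  exact integral_mono (((integrable_T hs 0 x).const_mul _).add ((integrable_T ht 0 x).const_mul _))
    ((integrable_T hm 0 x).const_mul _) fun ω => T_concave hs hsm hmt ω 0 x

/-- the minimal speed is concave in the step -/
lemma mm_concave {s m t : ℝ} (hs : 0 ≤ s) (hsm : s ≤ m) (hmt : m ≤ t) :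
    (t - m) * mm s + (m - s) * mm t ≤ (t - s) * mm m := by
  have hm := hs.trans hsm
  have ht := hm.trans hmt
  have hst : 0 ≤ t - s := by linarith
  rcases hst.eq_or_lt with h0 | h0
  · have e1 : t = s := by linarith
    have e2 : m = s := by linarith
    rw [e1, e2]
    simp
  · rw [← div_le_iff₀' h0]
    apply le_ciInf
    intro x
    have hx := eu_pos x.2
    rw [div_le_iff₀' h0, ← mul_div_assoc, le_div_iff₀ hx]
    have h1 := mul_le_mul_of_nonneg_left (mm_mul_le hs (x : V)) (sub_nonneg.2 hmt)
    have h2 := mul_le_mul_of_nonneg_left (mm_mul_le ht (x : V)) (sub_nonneg.2 hsm)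
    have h3 := h_concave hs hsm hmt (x : V)
    calc ((t - m) * mm s + (m - s) * mm t) * eu (x : V)
        = (t - m) * (mm s * eu (x : V)) + (m - s) * (mm t * eu (x : V)) := by ring
      _ ≤ _ := by linarith

/-- strict monotonicity of the minimal speed for every small step -/
theorem strict_small {a : ℝ} (ha : 0 < a) (hlt : a < mm 1 - 1) : mm a < mm (2 * a) := by
  by_contra hcon
  push Not at hcon
  have key : mm 1 ≤ mm a := by
    rcases le_total (2 * a) 1 with h2 | h2
    · have h3 := mm_concave (s := a) (m := 2 * a) (t := 1) ha.le (by linarith) h2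
      have h4 : (1 - 2 * a) * mm (2 * a) ≤ (1 - 2 * a) * mm a :=
        mul_le_mul_of_nonneg_left hcon (by linarith)
      have h5 : a * mm 1 ≤ a * mm (2 * a) := by nlinarith
      exact (le_of_mul_le_mul_left h5 ha).trans hcon
    · exact (mm_mono zero_le_one h2).trans hcon
  have := mm_le ha.le
  linarith

/-! ### scaling of the weights -/

/-- weights multiplied by a constant -/
def scl (c : ℝ) (τ : Weights) : Weights := fun e => c * τ e

lemma meas_scl (c : ℝ) : Measurable (scl c) := by
  apply measurable_pi_lambda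
  intro e
  exact measurable_const.mul (measurable_pi_apply e)

lemma law_scl (c : ℝ) (F : Measure ℝ) [IsProbabilityMeasure F] :
    law (F.map (fun x => c * x)) = (law F).map (scl c) := by
  have h2 := Measure.infinitePi_map_pi (fun _ : lat.edgeSet => F) (Y := fun _ => ℝ)
    (f := fun _ x => c * x) (fun _ => measurable_const.mul measurable_id)
  unfold law
  rw [← h2]
  rfl

lemma pathTime_scl (c : ℝ) (τ : Weights) {u v : V} (r : lat.Walk u v) :
    pathTime (scl c τ) r = c * pathTime τ r := by
  unfold pathTime scl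
  rw [← List.sum_map_mul_left]

lemma passage_scl {c : ℝ} (hc : 0 ≤ c) (τ : Weights) (u v : V) :
    passage (scl c τ) u v = c * passage τ u v := by
  unfold passage
  rw [Real.mul_iInf_of_nonneg hc]
  congr 1
  funext r
  exact pathTime_scl c τ r

lemma var_scl {c : ℝ} (hc : 0 ≤ c) (F : Measure ℝ) [IsProbabilityMeasure F] (v : V) :
    Var[fun τ => passage τ 0 v; law (F.map (fun x => c * x))] =
      c ^ 2 * Var[fun τ => passage τ 0 v; law F] := by
  rw [law_scl, variance_map (meas_passage 0 v).aemeasurable (meas_scl c).aemeasurable]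
  rw [← variance_const_mul]
  congr 1
  funext τ
  exact passage_scl hc τ 0 v

lemma limsup_lt_top_iff (u : ℕ → ℝ) :
    limsup (fun n => ((u n : ℝ) : EReal)) atTop < ⊤ ↔ ∃ M : ℝ, ∀ᶠ n in atTop, u n ≤ M := by
  constructor
  · intro hlt
    obtain ⟨M, hM, -⟩ := EReal.lt_iff_exists_real_btwn.1 hlt
    refine ⟨M, ?_⟩
    filter_upwards [eventually_lt_of_limsup_lt hM] with n hn
    exact (EReal.coe_lt_coe_iff.1 hn).le
  · rintro ⟨M, hM⟩
    refine lt_of_le_of_lt ?_ (EReal.coe_lt_top M)
    refine limsup_le_of_le (by isBoundedDefault) ?_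
    filter_upwards [hM] with n hn
    exact EReal.coe_le_coe_iff.2 hn

/-- the variance exponent is invariant under scaling of the weights -/
theorem chiVar_scl {c : ℝ} (hc : 0 < c) (F : Measure ℝ) [IsProbabilityMeasure F] (x : ℝ × ℝ) :
    chiVar (F.map (fun x => c * x)) x = chiVar F x := by
  unfold chiVar
  congr 1
  ext z
  simp only [Set.mem_ofPred_eq]
  apply exists_congr
  intro κ
  apply and_congr_right
  intro _
  rw [limsup_lt_top_iff, limsup_lt_top_iff]
  have hc2 : 0 < c ^ 2 := by positivity
  constructor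
  · rintro ⟨M, hM⟩
    refine ⟨M / c ^ 2, ?_⟩
    filter_upwards [hM] with n hn
    rw [var_scl hc.le] at hn
    rw [le_div_iff₀ hc2]
    linarith
  · rintro ⟨M, hM⟩
    refine ⟨c ^ 2 * M, ?_⟩
    filter_upwards [hM] with n hn
    rw [var_scl hc.le]
    have := mul_le_mul_of_nonneg_left hn hc2.le
    linarith

/-- the two-atom law with mass `1 - 1/10000` at `s` and mass `1/10000` at `t` -/
noncomputable def twoAtom (s t : ℝ) : Measure ℝ :=
  ENNReal.ofReal (9999 / 10000) • Measure.dirac s + ENNReal.ofReal (1 / 10000) • Measure.dirac t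

lemma twoAtom_eq {s t : ℝ} (hs : s ≠ 0) :
    twoAtom s t = (Fa (t / s - 1)).map (fun x => s * x) := by
  have hm : Measurable (fun b : Bool => 1 + (t / s - 1) * (if b then (1 : ℝ) else 0)) :=
    measurable_of_countable _
  have hm2 : Measurable (fun x : ℝ => s * x) := measurable_const.mul measurable_id
  unfold Fa twoAtom
  rw [Measure.map_map hm2 hm, bern]
  have hm3 : Measurable ((fun x : ℝ => s * x) ∘
      fun b : Bool => 1 + (t / s - 1) * (if b then (1 : ℝ) else 0)) := hm2.comp hm
  rw [Measure.map_add _ _ hm3, Measure.map_smul, Measure.map_smul, Measure.map_dirac' hm3,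
    Measure.map_dirac' hm3]
  have e1 : (1 : ℝ) - q = 9999 / 10000 := by unfold q; norm_num
  have e2 : q = 1 / 10000 := rfl
  rw [e1, e2]
  congr 3
  · simp
  · simp only [Function.comp_apply, if_true, mul_one]
    field_simp
    ring

end Pool.Agent.KS6_98.FppA
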